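import Pool.Agent.KS6_13.SH.Main

/-!
# Inclusion of a regular language in the shuffle of a regular and a `DCM(1,1)` language is
`Π₁`-complete
-/

set_option autoImplicit false

namespace Pool.Agent.Results.MP_732884_lc.PiOneComplete

open Pool.Agent.Results.MP_732884_lc.ShuffleInclusion

theorem result : ∃ (k : ℕ) (L₁ : Language (Fin k)) (M : DCM (Fin k)),
    L₁.IsRegular ∧ M.OneReversal ∧
    REPred (fun c : FACode k => ¬ faLang c ⊆ shuffle L₁ M.lang) ∧
    ∀ p : ℕ → Prop, REPred p → ∃ f : ℕ → FACode k, Computable f ∧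
      (∀ n, Deterministic (f n)) ∧ ∀ n, p n ↔ ¬ faLang (f n) ⊆ shuffle L₁ M.lang :=
  Pool.Agent.KS6_13.SH.final

end Pool.Agent.Results.MP_732884_lc.PiOneComplete
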